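import Pool.Agent.KAP66.Viol

/-!
The local law LLR of helper90 (message 41405) at the heaviest elements gives law R, hence the
elementary type conjecture for `-1 = 1`.
-/

set_option autoImplicit false
set_option linter.unusedSectionVars false

namespace Pool.Agent.KAP87

open QS
open Pool.Agent.MXR66 (va qr qm ql of_ql cancel)
open Pool.Agent.RF66 (LawR)
open Pool.Agent.KAP66

variable {S : QStruct}

/-- `u` has at most one value different from zero on `Y₀ = V_g ⟨s, y⟩`, that is, on all `v` with
`q(g, v)` among `0`, `q(g, s)`, `q(g, y)`, `q(g, s y)` -/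
def Low (S : QStruct) (g s y u : S.G) : Prop :=
  ∃ e, ∀ v, (S.q g v = S.zero ∨ S.q g v = S.q g s ∨ S.q g v = S.q g y ∨
    S.q g v = S.q g (s * y)) → S.q u v = S.zero ∨ S.q u v = e

/-- the subgroup `Y₀ = V_g ⟨s, y⟩` -/
def Y0 (S : QStruct) (g s y : S.G) : Subgroup S.G where
  carrier := {v | S.q g v = S.zero ∨ S.q g v = S.q g s ∨ S.q g v = S.q g y ∨
    S.q g v = S.q g (s * y)}
  one_mem' := Or.inl (S.q_one g)
  mul_mem' := fun {a b} ha hb => by
    have hz : ∀ x w : S.G, S.q g x = S.q g w → S.q g (x * w) = S.zero := fun x w h => qm h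
    have key : ∀ x w : S.G, S.q g x = S.q g w → ∀ z, S.q g (x * z) = S.q g (w * z) := by
      intro x w h z
      have h1 := qr (c := w * z) (hz x w h)
      have e : x * w * (w * z) = x * z := by
        rw [mul_assoc, ← mul_assoc w w z, S.exp_two, one_mul]
      rw [e] at h1
      exact h1
    have key2 : ∀ x w : S.G, S.q g x = S.q g w → ∀ z, S.q g (z * x) = S.q g (z * w) := by
      intro x w h z
      rw [mul_comm z x, mul_comm z w]
      exact key x w h z
    show S.q g (a * b) = S.zero ∨ S.q g (a * b) = S.q g s ∨ S.q g (a * b) = S.q g y ∨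
      S.q g (a * b) = S.q g (s * y)
    rcases ha with ha | ha | ha | ha
    · rw [qr ha]; exact hb
    · rw [key a s ha b]
      rcases hb with hb | hb | hb | hb
      · right; left
        rw [mul_comm, qr hb]
      · left
        rw [key2 b s hb s, S.exp_two, S.q_one]
      · right; right; right
        exact key2 b y hb s
      · right; right; left
        rw [key2 b (s * y) hb s, ← mul_assoc, S.exp_two, one_mul]
    · rw [key a y ha b]
      rcases hb with hb | hb | hb | hb
      · right; right; left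
        rw [mul_comm, qr hb]
      · right; right; right
        rw [key2 b s hb y, mul_comm]
      · left
        rw [key2 b y hb y, S.exp_two, S.q_one]
      · right; left
        rw [key2 b (s * y) hb y, mul_comm s y, ← mul_assoc, S.exp_two, one_mul]
    · rw [key a (s * y) ha b]
      rcases hb with hb | hb | hb | hb
      · right; right; right
        rw [mul_comm, qr hb]
      · right; right; left
        rw [key2 b s hb (s * y), mul_comm s y, mul_assoc, S.exp_two, mul_one]
      · right; left
        rw [key2 b y hb (s * y), mul_assoc, S.exp_two, mul_one]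
      · left
        rw [key2 b (s * y) hb (s * y), S.exp_two, S.q_one]
  inv_mem' := fun {a} ha => by
    have : a⁻¹ = a := inv_eq_of_mul_eq_one_left (S.exp_two a)
    rw [this]; exact ha

theorem mem_Y0 {g s y v : S.G} : v ∈ Y0 S g s y ↔ (S.q g v = S.zero ∨ S.q g v = S.q g s ∨
    S.q g v = S.q g y ∨ S.q g v = S.q g (s * y)) := Iff.rfl

variable [Finite S.G]

theorem card_half {P : Subgroup S.G} {u : S.G} {e : S.Q}
    (h : ∀ v ∈ P, S.q u v = S.zero ∨ S.q u v = e) :
    Nat.card P ≤ 2 * Nat.card {v : S.G // v ∈ P ∧ S.q u v = S.zero} := by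
  classical
  by_cases hx : ∃ x0 ∈ P, S.q u x0 = e
  · obtain ⟨x0, h1, h2⟩ := hx
    have e1 : 2 * Nat.card {v : S.G // v ∈ P ∧ S.q u v = S.zero} =
        Nat.card (Bool × {v : S.G // v ∈ P ∧ S.q u v = S.zero}) := by
      rw [Nat.card_prod, Nat.card_eq_fintype_card (α := Bool), Fintype.card_bool]
    rw [e1]
    let f : P → Bool × {v : S.G // v ∈ P ∧ S.q u v = S.zero} := fun v =>
      if hv : S.q u v.1 = S.zero then (false, ⟨v.1, v.2, hv⟩)
      else (true, ⟨v.1 * x0, P.mul_mem v.2 h1,
        qm (((h v.1 v.2).resolve_left hv).trans h2.symm)⟩)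
    have hf : Function.Injective f := by
      intro v v' hvv
      by_cases hv : S.q u v.1 = S.zero <;> by_cases hv' : S.q u v'.1 = S.zero
      · have e2 : f v = (false, ⟨v.1, v.2, hv⟩) := dif_pos hv
        have e3 : f v' = (false, ⟨v'.1, v'.2, hv'⟩) := dif_pos hv'
        rw [e2, e3] at hvv
        exact Subtype.ext (congrArg (fun z => z.2.1) hvv)
      · have e2 : f v = (false, ⟨v.1, v.2, hv⟩) := dif_pos hv
        have e3 : (f v').1 = true := by
          show (dite _ _ _ : Bool × _).1 = true
          rw [dif_neg hv']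
        rw [← hvv, e2] at e3
        exact absurd e3 (by simp)
      · have e2 : f v' = (false, ⟨v'.1, v'.2, hv'⟩) := dif_pos hv'
        have e3 : (f v).1 = true := by
          show (dite _ _ _ : Bool × _).1 = true
          rw [dif_neg hv]
        rw [hvv, e2] at e3
        exact absurd e3 (by simp)
      · have e2 : f v = (true, ⟨v.1 * x0, P.mul_mem v.2 h1,
          qm (((h v.1 v.2).resolve_left hv).trans h2.symm)⟩) := dif_neg hv
        have e3 : f v' = (true, ⟨v'.1 * x0, P.mul_mem v'.2 h1,
          qm (((h v'.1 v'.2).resolve_left hv').trans h2.symm)⟩) := dif_neg hv'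
        rw [e2, e3] at hvv
        exact Subtype.ext (mul_right_cancel (congrArg (fun z => z.2.1) hvv))
    exact Nat.card_le_card_of_injective f hf
  · push Not at hx
    have h5 : Nat.card P ≤ Nat.card {v : S.G // v ∈ P ∧ S.q u v = S.zero} :=
      Nat.card_le_card_of_injective
        (fun v : P => (⟨v.1, v.2, (h v.1 v.2).resolve_right (hx v.1 v.2)⟩ :
          {v : S.G // v ∈ P ∧ S.q u v = S.zero}))
        (fun v v' e => Subtype.ext (congrArg (fun z => z.1) e))
    omega

/-- `|Y₀| ≥ 4 |V_g|` -/
theorem card_Y0 {g s y : S.G} (hs : S.q g s ≠ S.zero) (hy : S.q g y ≠ S.zero)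
    (hne : S.q g s ≠ S.q g y) : 4 * va S g ≤ Nat.card (Y0 S g s y) := by
  classical
  have hsy : S.q g (s * y) ≠ S.zero := fun h => hne ((S.qs3 _ _ _).2 h)
  have d1 : S.q g 1 ≠ S.q g s := fun h => hs (by rw [← h, S.q_one])
  have d2 : S.q g 1 ≠ S.q g y := fun h => hy (by rw [← h, S.q_one])
  have d3 : S.q g 1 ≠ S.q g (s * y) := fun h => hsy (by rw [← h, S.q_one])
  have d4 : S.q g s ≠ S.q g (s * y) := fun h => hy (by
    have h1 := qm h
    rwa [← mul_assoc, S.exp_two, one_mul] at h1)
  have d5 : S.q g y ≠ S.q g (s * y) := fun h => hs (by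
    have h1 := qm h
    rwa [cancel] at h1)
  let w : Fin 4 → S.G := ![1, s, y, s * y]
  have hinj : ∀ i j : Fin 4, S.q g (w i) = S.q g (w j) → i = j := by
    intro i j h
    fin_cases i <;> fin_cases j <;>
      first
      | rfl
      | exact absurd h d1
      | exact absurd h.symm d1
      | exact absurd h d2
      | exact absurd h.symm d2
      | exact absurd h d3
      | exact absurd h.symm d3
      | exact absurd h hne
      | exact absurd h.symm hne
      | exact absurd h d4
      | exact absurd h.symm d4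
      | exact absurd h d5
      | exact absurd h.symm d5
  have hw : ∀ i, w i ∈ Y0 S g s y := by
    intro i
    fin_cases i
    · exact mem_Y0.2 (Or.inl (S.q_one g))
    · exact mem_Y0.2 (Or.inr (Or.inl rfl))
    · exact mem_Y0.2 (Or.inr (Or.inr (Or.inl rfl)))
    · exact mem_Y0.2 (Or.inr (Or.inr (Or.inr rfl)))
  have e1 : 4 * va S g = Nat.card (Fin 4 × {v : S.G // S.q g v = S.zero}) := by
    rw [Nat.card_prod, Nat.card_eq_fintype_card (α := Fin 4), Fintype.card_fin]
    rfl
  rw [e1]
  refine Nat.card_le_card_of_injective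
    (fun p : Fin 4 × {v : S.G // S.q g v = S.zero} =>
      (⟨p.2.1 * w p.1, (Y0 S g s y).mul_mem (mem_Y0.2 (Or.inl p.2.2)) (hw p.1)⟩ : Y0 S g s y)) ?_
  rintro ⟨i, v⟩ ⟨j, v'⟩ e
  have e2 : v.1 * w i = v'.1 * w j := congrArg Subtype.val e
  have e3 : S.q g (w i) = S.q g (w j) := by
    rw [← qr (c := w i) v.2, e2, qr v'.2]
  have e4 := hinj i j e3
  subst e4
  exact Prod.ext rfl (Subtype.ext (mul_right_cancel e2))

/-- no heaviest element satisfies the hypothesis of LLR -/
theorem no_low {g s y : S.G} (hg : Heavy S g) (hs : S.q g s ≠ S.zero) (hy : S.q g y ≠ S.zero)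
    (hne : S.q g s ≠ S.q g y) {u : S.G} (hu : u ≠ 1) (h : Low S g s y u) : False := by
  obtain ⟨e, he⟩ := h
  have h1 := card_Y0 hs hy hne
  have h2 := card_half (P := Y0 S g s y) (u := u) (e := e) fun v hv => he v (mem_Y0.1 hv)
  have h3 : Nat.card {v : S.G // v ∈ Y0 S g s y ∧ S.q u v = S.zero} ≤ va S u := by
    unfold va
    exact Nat.card_le_card_of_injective
      (fun v => (⟨v.1, v.2.2⟩ : {v : S.G // S.q u v = S.zero}))
      (fun v v' e => Subtype.ext (congrArg (fun z => z.1) e))
  have h4 := hg.2 u hu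
  have h5 := va_pos g
  omega

omit [Finite S.G] in
/-- **the local law LLR at the heaviest elements gives the elementary type conjecture,
`-1 = 1`** -/
theorem etc_of_LLR (h : ∀ S : QStruct, Finite S.G → S.neg = 1 → ¬ ElemType S →
    (∀ T : QStruct, Finite T.G → T.neg = 1 → Nat.card T.G < Nat.card S.G → ElemType T) →
    ∀ g s y : S.G, Heavy S g → S.q g s ≠ S.zero → S.q g y ≠ S.zero → S.q g s ≠ S.q g y →
      S.q s y = S.zero → ∃ u, u ≠ 1 ∧ Low S g s y u) :
    ∀ S : QStruct, Finite S.G → S.neg = 1 → ElemType S := by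
  refine RF66.etc_of_R fun S hf hneg hS hsm g hg hmax => ?_
  haveI := hf
  intro s y hs hy hsy
  by_contra hne
  obtain ⟨u, hu, hl⟩ := h S hf hneg hS hsm g s y ⟨hg, hmax⟩ hs hy hne hsy
  exact no_low ⟨hg, hmax⟩ hs hy hne hu hl

end Pool.Agent.KAP87
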