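import Pool.Agent.KAP66.Unif

/-!
Law R of helper60 is true in every finite structure of elementary type with `-1 = 1`: if `|V_g|` is
largest among all elements `≠ 1`, then commuting elements outside `V_g` have the same value with
`g`.
-/

set_option autoImplicit false
set_option linter.unusedSectionVars false

namespace Pool.Agent.KAP87

open QS
open Pool.Agent.MXR66 (va)
open Pool.Agent.RF66 (LawR)
open Pool.Agent.KAP66

/-- law R at all heaviest elements -/
def RR (T : QStruct) : Prop := ∀ g : T.G, g ≠ 1 → (∀ x, x ≠ 1 → va T x ≤ va T g) → LawR T g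

theorem rr_of_two {T : QStruct} {e : T.Q} (h : ∀ x y, T.q x y = T.zero ∨ T.q x y = e) : RR T := by
  intro g _ _ s t hs ht _
  rw [(h g s).resolve_left hs, (h g t).resolve_left ht]

theorem va_le (T : QStruct) [Finite T.G] (x : T.G) : va T x ≤ Nat.card T.G := by
  unfold va
  exact Nat.card_le_card_of_injective (fun v : {v : T.G // T.q x v = T.zero} => v.1)
    Subtype.val_injective

theorem rr_prod {A B : QStruct} [Finite A.G] [Finite B.G] (hA : RR A) (hB : RR B) :
    RR (QS.prod A B) := by
  rintro ⟨a, b⟩ hg hmax ⟨s, s'⟩ ⟨t, t'⟩ hs ht hst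
  have hpA : ∀ a : A.G, 0 < va A a := fun a => va_pos a
  have hpB : ∀ b : B.G, 0 < va B b := fun b => va_pos b
  have hcA : 0 < Nat.card A.G := Nat.card_pos
  have hcB : 0 < Nat.card B.G := Nat.card_pos
  have hst1 : A.q s t = A.zero := congrArg Prod.fst hst
  have hst2 : B.q s' t' = B.zero := congrArg Prod.snd hst
  by_cases ha : a = 1
  · subst ha
    have hb : b ≠ 1 := fun hb => hg (by rw [hb]; rfl)
    have h1 : ∀ x : A.G, ∀ y : A.G, A.q 1 x = A.q 1 y := fun x y => by
      rw [A.qs2, A.q_one, A.qs2, A.q_one]
    have h0 : ∀ x : A.G, A.q 1 x = A.zero := fun x => by rw [A.qs2, A.q_one]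
    refine Prod.ext (h1 s t) (hB b hb (fun x hx => ?_) s' t' (fun h => ?_) (fun h => ?_) hst2)
    · have h2 := hmax ((1, x) : A.G × B.G) (fun e => hx (congrArg Prod.snd e))
      rw [va_prod, va_prod, va_one] at h2
      exact Nat.le_of_mul_le_mul_left h2 hcA
    · exact hs (Prod.ext (h0 s) h)
    · exact ht (Prod.ext (h0 t) h)
  by_cases hb : b = 1
  · subst hb
    have h1 : ∀ x : B.G, ∀ y : B.G, B.q 1 x = B.q 1 y := fun x y => by
      rw [B.qs2, B.q_one, B.qs2, B.q_one]
    have h0 : ∀ x : B.G, B.q 1 x = B.zero := fun x => by rw [B.qs2, B.q_one]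
    refine Prod.ext (hA a ha (fun x hx => ?_) s t (fun h => ?_) (fun h => ?_) hst1) (h1 s' t')
    · have h2 := hmax ((x, 1) : A.G × B.G) (fun e => hx (congrArg Prod.fst e))
      rw [va_prod, va_prod, va_one] at h2
      exact Nat.le_of_mul_le_mul_right h2 hcB
    · exact hs (Prod.ext h (h0 s'))
    · exact ht (Prod.ext h (h0 t'))
  -- both components different from 1: both are radical
  have h2 := hmax ((a, 1) : A.G × B.G) (fun e => ha (congrArg Prod.fst e))
  rw [va_prod, va_prod, va_one] at h2
  have h3 : Nat.card B.G ≤ va B b := Nat.le_of_mul_le_mul_left h2 (hpA a)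
  have h4 := hmax ((1, b) : A.G × B.G) (fun e => hb (congrArg Prod.snd e))
  rw [va_prod, va_prod, va_one] at h4
  have h5 : Nat.card A.G ≤ va A a := Nat.le_of_mul_le_mul_right h4 (hpB b)
  have z1 := zero_of_va (le_antisymm (va_le A a) h5)
  have z2 := zero_of_va (le_antisymm (va_le B b) h3)
  exact absurd (Prod.ext (z1 s) (z2 s')) hs

theorem self_zero (T : QStruct) (h : T.neg = 1) (x : T.G) : T.q x x = T.zero := by
  have h1 := T.qs1 x
  rwa [h, one_mul] at h1

/-- commuting pairs in the extension -/
theorem ext_zero {W : QStruct} {a b : W.G} {α β : Multiplicative (ZMod 2)}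
    (h : (QS.ext W).q ((a, α) : W.G × Multiplicative (ZMod 2)) (b, β) = (QS.ext W).zero) :
    extMap W (a, α) (b, β) = (W.zero, 1) := congrArg Subtype.val h

theorem va_ext_x {W : QStruct} [Finite W.G] (hn : W.neg = 1) (a : W.G) :
    va (QS.ext W) ((a, Multiplicative.ofAdd 1) : W.G × Multiplicative (ZMod 2)) ≤ 2 := by
  classical
  unfold va
  have h2 := Nat.card_le_card_of_injective
    (fun v : {v : (QS.ext W).G // (QS.ext W).q
      ((a, Multiplicative.ofAdd 1) : W.G × Multiplicative (ZMod 2)) v = (QS.ext W).zero} =>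
        ((v.1 : W.G × Multiplicative (ZMod 2)).2)) ?_
  · refine h2.trans (le_of_eq ?_)
    rw [Nat.card_eq_fintype_card]
    rfl
  · rintro ⟨⟨b, β⟩, hb⟩ ⟨⟨c, γ⟩, hc⟩ e
    have e' : β = γ := e
    subst e'
    have h1 := ext_zero hb
    have h3 := ext_zero hc
    have h4 : b = c := by
      rcases two_cases β with rfl | rfl
      · rw [extMap_x_one] at h1 h3
        exact (congrArg Prod.snd h1).trans (congrArg Prod.snd h3).symm
      · rw [extMap_x_x, hn, one_mul] at h1 h3
        have h5 : a * b = a * c := (congrArg Prod.snd h1).trans (congrArg Prod.snd h3).symm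
        exact mul_left_cancel h5
    subst h4
    rfl

theorem va_ext_one {W : QStruct} [Finite W.G] {a : W.G} (ha : a ≠ 1) :
    va (QS.ext W) ((a, 1) : W.G × Multiplicative (ZMod 2)) = va W a := by
  unfold va
  refine Nat.card_congr
    { toFun := fun v => ⟨(v.1 : W.G × Multiplicative (ZMod 2)).1, ?_⟩
      invFun := fun v => ⟨((v.1, 1) : W.G × Multiplicative (ZMod 2)), ?_⟩
      left_inv := ?_
      right_inv := fun v => rfl }
  · obtain ⟨⟨b, β⟩, hb⟩ := v
    have h1 : extMap W (a, 1) (b, β) = (W.zero, 1) := congrArg Subtype.val hb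
    rcases two_cases β with rfl | rfl
    · rw [extMap_one_one] at h1
      exact congrArg Prod.fst h1
    · rw [extMap_one_x] at h1
      exact congrArg Prod.fst h1
  · apply Subtype.ext
    show extMap W (a, 1) (v.1, 1) = (W.zero, 1)
    rw [extMap_one_one, v.2]
  · rintro ⟨⟨b, β⟩, hb⟩
    have h1 : extMap W (a, 1) (b, β) = (W.zero, 1) := congrArg Subtype.val hb
    rcases two_cases β with rfl | rfl
    · rfl
    · rw [extMap_one_x] at h1
      exact absurd (congrArg Prod.snd h1) ha

theorem rr_ext {W : QStruct} [Finite W.G] (hn : W.neg = 1) (hW : RR W) : RR (QS.ext W) := by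
  classical
  rintro ⟨a, α⟩ hg hmax ⟨b, β⟩ ⟨c, γ⟩ hs ht hst
  have hfin : Finite (QS.ext W).G := by
    show Finite (W.G × Multiplicative (ZMod 2))
    infer_instance
  have hst' := ext_zero hst
  rcases two_cases α with rfl | rfl
  · -- `g = (a, 1)`
    have ha : a ≠ 1 := fun e => hg (by rw [e]; rfl)
    rcases two_cases β with rfl | rfl <;> rcases two_cases γ with rfl | rfl
    · rw [extMap_one_one] at hst'
      have h1 : W.q b c = W.zero := congrArg Prod.fst hst'
      have key := hW a ha (fun x hx => by
        have h2 := hmax ((x, 1) : W.G × Multiplicative (ZMod 2))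
          (fun e => hx (congrArg Prod.fst e))
        rwa [va_ext_one hx, va_ext_one ha] at h2) b c
        (fun h => hs (Subtype.ext (by
          show extMap W (a, 1) (b, 1) = (W.zero, 1)
          rw [extMap_one_one, h])))
        (fun h => ht (Subtype.ext (by
          show extMap W (a, 1) (c, 1) = (W.zero, 1)
          rw [extMap_one_one, h]))) h1
      refine Subtype.ext ?_
      show extMap W (a, 1) (b, 1) = extMap W (a, 1) (c, 1)
      rw [extMap_one_one, extMap_one_one, key]
    · rw [extMap_one_x] at hst'
      have hb : b = 1 := congrArg Prod.snd hst'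
      subst hb
      exact absurd ((QS.ext W).q_one _) hs
    · rw [extMap_x_one] at hst'
      have hc : c = 1 := congrArg Prod.snd hst'
      subst hc
      exact absurd ((QS.ext W).q_one _) ht
    · rw [extMap_x_x, hn, one_mul] at hst'
      have hbc : b * c = 1 := congrArg Prod.snd hst'
      have : b = c := (eq_iff_mul W b c).2 hbc
      rw [this]
  · -- `g = (a, x)`: all centralizers have at most two elements
    have h2 := va_ext_x hn a
    have h1g : ((a, Multiplicative.ofAdd 1) : W.G × Multiplicative (ZMod 2)) ≠ 1 := hg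
    have hs1 : ((b, β) : W.G × Multiplicative (ZMod 2)) ≠ 1 := by
      intro e
      rw [e] at hs
      exact hs ((QS.ext W).q_one _)
    have ht1 : ((c, γ) : W.G × Multiplicative (ZMod 2)) ≠ 1 := by
      intro e
      rw [e] at ht
      exact ht ((QS.ext W).q_one _)
    have h3 := (hmax ((b, β) : W.G × Multiplicative (ZMod 2)) hs1).trans h2
    have hneg : (QS.ext W).neg = 1 := by
      show ((W.neg, 1) : W.G × Multiplicative (ZMod 2)) = 1
      rw [hn]; rfl
    by_contra hne
    have h4 : ((b, β) : W.G × Multiplicative (ZMod 2)) ≠ (c, γ) := by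
      intro e
      rw [e] at hne
      exact hne rfl
    have h5 : 2 < va (QS.ext W) ((b, β) : W.G × Multiplicative (ZMod 2)) := by
      have := Fintype.ofFinite (QS.ext W).G
      unfold va
      rw [Nat.card_eq_fintype_card]
      refine Fintype.two_lt_card_iff.2 ⟨⟨(1 : (QS.ext W).G), (QS.ext W).q_one _⟩,
        ⟨((b, β) : W.G × Multiplicative (ZMod 2)), self_zero (QS.ext W) hneg _⟩,
        ⟨((c, γ) : W.G × Multiplicative (ZMod 2)), hst⟩, ?_, ?_, ?_⟩
      · exact fun e => hs1 (congrArg Subtype.val e).symm
      · exact fun e => ht1 (congrArg Subtype.val e).symm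
      · exact fun e => h4 (congrArg Subtype.val e)
    omega

/-- **law R in all structures of elementary type with `-1 = 1`** -/
theorem lawR_elem {T : QStruct} (hE : ElemType T) : T.neg = 1 → Finite T.G → RR T := by
  classical
  induction hE with
  | L0 S h =>
    intro _ _ g hg
    have hs := Nat.card_eq_one_iff_unique.1 h
    haveI := hs.1
    exact absurd (Subsingleton.elim g 1) hg
  | L10 S h h1 h2 => exact fun _ _ => rr_of_two (e := S.zero) fun x y => Or.inl (h2 x y)
  | L11 S h h1 h2 => exact fun hneg => absurd hneg h1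
  | L1 S h h1 h2 => exact fun hneg => absurd hneg h1
  | loc S hf h h1 h2 =>
    intro _ _
    obtain ⟨u, v, huv, hset⟩ := Nat.card_eq_two_iff.1 h2
    have hall : ∀ β : S.Q, β = u ∨ β = v := fun β => by
      have hb : β ∈ ({u, v} : Set S.Q) := hset ▸ Set.mem_univ β
      exact hb
    rcases hall S.zero with h0 | h0
    · exact rr_of_two (e := v) fun x y => by
        rcases hall (S.q x y) with h | h
        · exact Or.inl (h.trans h0.symm)
        · exact Or.inr h
    · exact rr_of_two (e := u) fun x y => by
        rcases hall (S.q x y) with h | h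
        · exact Or.inr h
        · exact Or.inl (h.trans h0.symm)
  | prod A B h1 h2 ih1 ih2 =>
    intro hneg hf
    have hnA : A.neg = 1 := congrArg Prod.fst hneg
    have hnB : B.neg = 1 := congrArg Prod.snd hneg
    haveI : Finite (A.G × B.G) := hf
    haveI : Finite A.G := Finite.of_injective (fun a : A.G => ((a, 1) : A.G × B.G))
      fun a a' e => congrArg Prod.fst e
    haveI : Finite B.G := Finite.of_injective (fun b : B.G => ((1, b) : A.G × B.G))
      fun b b' e => congrArg Prod.snd e
    exact rr_prod (ih1 hnA inferInstance) (ih2 hnB inferInstance)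
  | ext W h ih =>
    intro hneg hf
    have hn : W.neg = 1 := congrArg Prod.fst hneg
    haveI : Finite (W.G × Multiplicative (ZMod 2)) := hf
    haveI : Finite W.G := Finite.of_injective
      (fun a : W.G => ((a, 1) : W.G × Multiplicative (ZMod 2)))
      fun a a' e => congrArg Prod.fst e
    exact rr_ext hn (ih hn inferInstance)
  | iso S T hi h ih =>
    intro hneg hf
    obtain ⟨φ, hφ, hq⟩ := hi
    have hnS : S.neg = 1 := by
      apply φ.injective
      rw [hφ, hneg, map_one]
    haveI : Finite S.G := Finite.of_equiv _ φ.symm.toEquiv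
    have hz : ∀ a b, S.q a b = S.zero ↔ T.q (φ a) (φ b) = T.zero := by
      intro a b
      have h1 := hq a b a 1
      rw [S.q_one, map_one, T.q_one] at h1
      exact h1
    have hR := ih hnS inferInstance
    intro g hg hmax s t hs ht hst
    have key := hR (φ.symm g) (fun e => hg (by rw [← φ.apply_symm_apply g, e, map_one]))
      (fun x hx => by
        rw [va_iso φ hz, va_iso φ hz, φ.apply_symm_apply]
        exact hmax _ fun e => hx (φ.injective (e.trans (map_one φ).symm)))
      (φ.symm s) (φ.symm t)
      (fun h => hs (by have := (hz _ _).1 h; rwa [φ.apply_symm_apply, φ.apply_symm_apply] at this))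
      (fun h => ht (by have := (hz _ _).1 h; rwa [φ.apply_symm_apply, φ.apply_symm_apply] at this))
      ((hz _ _).2 (by rw [φ.apply_symm_apply, φ.apply_symm_apply]; exact hst))
    have h2 := (hq _ _ _ _).1 key
    rwa [φ.apply_symm_apply, φ.apply_symm_apply, φ.apply_symm_apply] at h2

end Pool.Agent.KAP87
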