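import Pool.Agent.UC32.Door

/-!
Law MI(Z) (helpers 51, 63, 90): if `Z` is a maximal isotropic subgroup and `s` is heaviest in
`s Z`, then `V_(sz) ⊆ V_s Z` for all `z ∈ Z`.  It gives law HG (helper74), so the elementary type
conjecture for `-1 = 1`.
-/

set_option autoImplicit false
set_option linter.unusedSectionVars false

namespace Pool.Agent.KAP87

open QS
open Pool.Agent.MXR66 (va qr qm ql of_ql cancel)
open Pool.Agent.KAP66
open Pool.Agent.KAP31
open Pool.Agent.UC32 (q_self LawHG etc_of_HG)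
open scoped Classical

variable {S : QStruct}

/-- the annihilator of a set -/
def annS (S : QStruct) (T : Set S.G) : Subgroup S.G where
  carrier := {x | ∀ t ∈ T, S.q t x = S.zero}
  one_mem' := fun t _ => S.q_one t
  mul_mem' := fun {x y} hx hy t ht => (qr (hx t ht)).trans (hy t ht)
  inv_mem' := fun {x} hx t ht => by
    have h : x⁻¹ = x := inv_eq_of_mul_eq_one_left (S.exp_two x)
    rw [h]
    exact hx t ht

/-- `Z` is a maximal isotropic subgroup: `Z = V_Z` -/
def MaxIso (S : QStruct) (Z : Subgroup S.G) : Prop :=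
  ∀ x, x ∈ Z ↔ ∀ z ∈ Z, S.q z x = S.zero

/-- the closure of an isotropic set is isotropic -/
theorem closure_iso {T : Set S.G} (h : ∀ x ∈ T, ∀ y ∈ T, S.q x y = S.zero) :
    ∀ x ∈ Subgroup.closure T, ∀ y ∈ Subgroup.closure T, S.q x y = S.zero := by
  have h1 : Subgroup.closure T ≤ annS S T := (Subgroup.closure_le _).2 fun y hy x hx => h x hx y hy
  have h2 : Subgroup.closure T ≤ annS S (Subgroup.closure T : Set S.G) :=
    (Subgroup.closure_le _).2 fun x hx y hy => by
      rw [S.qs2]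
      exact h1 hy x hx
  exact fun x hx y hy => h2 hy x hx

/-- commuting elements lie in a maximal isotropic subgroup -/
theorem exists_maxIso [Finite S.G] (hneg : S.neg = 1) {n w : S.G} (h : S.q n w = S.zero) :
    ∃ Z : Subgroup S.G, MaxIso S Z ∧ n ∈ Z ∧ w ∈ Z := by
  have hfin : Finite (Subgroup S.G) := inferInstance
  let P : Set (Subgroup S.G) :=
    {Z | (∀ x ∈ Z, ∀ y ∈ Z, S.q x y = S.zero) ∧ n ∈ Z ∧ w ∈ Z}
  have hne : P.Nonempty := by
    refine ⟨Subgroup.closure {n, w}, closure_iso ?_, Subgroup.subset_closure (by simp),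
      Subgroup.subset_closure (by simp)⟩
    intro x hx y hy
    rcases hx with rfl | hx <;> rcases hy with rfl | hy
    · exact q_self hneg _
    · rw [Set.mem_singleton_iff.1 hy]
      exact h
    · rw [Set.mem_singleton_iff.1 hx, S.qs2]
      exact h
    · rw [Set.mem_singleton_iff.1 hx, Set.mem_singleton_iff.1 hy]
      exact q_self hneg _
  obtain ⟨Z, hZ⟩ := (Set.toFinite P).exists_maximal hne
  refine ⟨Z, fun x => ⟨fun hx z hz => hZ.prop.1 z hz x hx, fun hx => ?_⟩, hZ.prop.2.1,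
    hZ.prop.2.2⟩
  have h1 : Subgroup.closure (insert x (Z : Set S.G)) ∈ P := by
    refine ⟨closure_iso ?_, Subgroup.subset_closure (Or.inr hZ.prop.2.1),
      Subgroup.subset_closure (Or.inr hZ.prop.2.2)⟩
    intro a ha b hb
    rcases ha with rfl | ha <;> rcases hb with rfl | hb
    · exact q_self hneg _
    · rw [S.qs2]
      exact hx b hb
    · exact hx a ha
    · exact hZ.prop.1 a ha b hb
  have h2 : Z ≤ Subgroup.closure (insert x (Z : Set S.G)) := fun z hz =>
    Subgroup.subset_closure (Or.inr hz)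
  exact hZ.le_of_ge h1 h2 (Subgroup.subset_closure (Or.inl rfl))

/-- **`D_a = ⋃ V_t V_n`**, `t` over the elements with `n t = a` -/
theorem D_cover (hneg : S.neg = 1) {a : S.Q} {n s y : S.G} (hs : S.q n s = a) (hy : InD S a y) :
    ∃ t w, S.q n t = a ∧ S.q n w = S.zero ∧ S.q t (y * w) = S.zero := by
  obtain ⟨s', h1, h2⟩ := hy
  obtain ⟨t, h3, h4⟩ := slot (x := n) (y := s') ⟨s, hs⟩ h1
  have h5 : S.q (n * s') t = S.zero := ql (h3.trans h4.symm)
  have h6 : S.q (n * s') y = S.q n y := qmul_left h2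
  have h7 : S.q (n * s') (t * y) = S.q n y := (qr h5).trans h6
  obtain ⟨m, h8, h9⟩ := slot (x := n) (y := t * y) (a := S.q n y) ⟨y, rfl⟩
    ⟨n * s', by rw [S.qs2]; exact h7⟩
  have h10 : S.q n (y * m) = S.zero := qm h8.symm
  have h11 : S.q (n * (t * y)) m = S.zero := ql (h8.trans h9.symm)
  have e1 : y * (y * m) = m := by rw [← mul_assoc, S.exp_two, one_mul]
  refine ⟨n * (t * (y * m)), y * m, ?_, h10, ?_⟩
  · rw [qr (q_self hneg n), mul_comm, qr h10, h3]
  · rw [e1]
    have e2 : n * (t * (y * m)) = n * (t * y) * m := by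
      simp only [mul_assoc]
    rw [e2, qmul_left (q_self hneg m)]
    exact h11

/-- **law MI(Z)**: `V_(sz) ⊆ V_s Z` for `z ∈ Z` if `Z` is maximal isotropic and `s ∉ Z` is heaviest
in `s Z` -/
def LawMI (S : QStruct) : Prop := ∀ Z : Subgroup S.G, MaxIso S Z → ∀ s, s ∉ Z →
  (∀ z ∈ Z, va S (s * z) ≤ va S s) → ∀ z ∈ Z, ∀ x, S.q (s * z) x = S.zero →
    ∃ z' ∈ Z, S.q s (x * z') = S.zero

/-- **law MI(Z) gives law HG** -/
theorem LawMI.hg [Finite S.G] (hneg : S.neg = 1) (h : LawMI S) : LawHG S := by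
  intro a s n ha hn hmax y hy
  have hn' : S.q n s = a := by rw [S.qs2, hn]
  obtain ⟨t, w, h1, h2, h3⟩ := D_cover hneg hn' hy
  have h4 : S.q n (s * t) = S.zero := qm (hn'.trans h1.symm)
  obtain ⟨Z, hZ, hnZ, hzZ⟩ := exists_maxIso hneg h4
  have hsZ : s ∉ Z := fun hs => ha (by rw [← hn']; exact (hZ s).1 hs n hnZ)
  have e1 : s * (s * t) = t := by rw [← mul_assoc, S.exp_two, one_mul]
  obtain ⟨z', h5, h6⟩ := h Z hZ s hsZ (fun z hz => hmax _ (by
    rw [qmul_left (by rw [S.qs2]; exact (hZ z).1 hz n hnZ), hn])) (s * t) hzZ (y * w)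
    (by rw [e1]; exact h3)
  refine ⟨y * w * z', z' * w, h6, (qr ((hZ z').1 h5 n hnZ)).trans h2, ?_⟩
  calc y * w * z' * (z' * w) = y * (w * w) * (z' * z') := by ac_rfl
    _ = y := by rw [S.exp_two, S.exp_two, mul_one, mul_one]

/-- **law MI(Z) gives the elementary type conjecture for `-1 = 1`** -/
theorem etc_of_MI (h : ∀ S : QStruct, MinEx S → LawMI S) :
    ∀ S : QStruct, Finite S.G → S.neg = 1 → ElemType S :=
  etc_of_HG fun S M => by
    have := M.fin
    exact (h S M).hg M.neg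

end Pool.Agent.KAP87
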