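import Pool.Agent.KAP87.MIZ
import Pool.Agent.PAIR53.Fibre

/-!
Law PC (helpers 51, 63, 90; pairs suffice: 17, 38, 76, 78, 86, typed by 53): if `Z` is a maximal
isotropic subgroup and any two elements `y ∈ V_(xz)`, `y' ∈ V_(xz')`, `z, z' ∈ Z`, lie in
`V_(xz'') Z` for one `z'' ∈ Z`, then `V_(sz) ⊆ V_s Z` for the heaviest `s ∈ x Z`: law MI(Z).
-/

set_option autoImplicit false
set_option linter.unusedSectionVars false

namespace Pool.Agent.KAP87

open QS
open Pool.Agent.MXR66 (va qr qm ql of_ql cancel)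
open Pool.Agent.KAP66
open Pool.Agent.KAP31
open Pool.Agent.UC32 (q_self)
open Pool.Agent.AST (toD)
open Pool.Agent.PAIR53 (Fib fibre)
open scoped Classical

variable {S : QStruct}

/-- **pairs and closure** for `Z` and the coset `x Z` -/
def PCat (S : QStruct) (Z : Subgroup S.G) (x : S.G) : Prop :=
  ∀ z ∈ Z, ∀ z' ∈ Z, ∀ y y', S.q (x * z) y = S.zero → S.q (x * z') y' = S.zero →
    ∃ z1 ∈ Z, (∃ v ∈ Z, S.q (x * z1) (y * v) = S.zero) ∧ ∃ v ∈ Z, S.q (x * z1) (y' * v) = S.zero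

/-- a subgroup as a subspace -/
noncomputable def sm (H : Subgroup S.G) : Submodule (ZMod 2) (Additive S.G) where
  carrier := {x | Additive.toMul x ∈ H}
  add_mem' := fun {x y} hx hy => H.mul_mem hx hy
  zero_mem' := H.one_mem
  smul_mem' := by
    intro c x hx
    have hc : c = 0 ∨ c = 1 := by
      revert c
      decide
    rcases hc with rfl | rfl
    · rw [zero_smul]
      exact H.one_mem
    · rwa [one_smul]

theorem mem_sm {H : Subgroup S.G} {x : S.G} : Additive.ofMul x ∈ sm H ↔ x ∈ H := Iff.rfl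

/-- the annihilator of an element -/
def vz (S : QStruct) (x : S.G) : Subgroup S.G := annS S {x}

theorem mem_vz {x y : S.G} : y ∈ vz S x ↔ S.q x y = S.zero :=
  ⟨fun h => h x rfl, fun h t ht => by rw [Set.mem_singleton_iff.1 ht]; exact h⟩

theorem card_sm (H : Subgroup S.G) : Nat.card (sm H) = Nat.card H := rfl

theorem card_vz (x : S.G) : Nat.card (vz S x) = va S x :=
  Nat.card_congr (Equiv.subtypeEquivRight fun _ => mem_vz)

/-- the union of the `V_(xz) Z` -/
def DZ (S : QStruct) (Z : Subgroup S.G) (x : S.G) (h : PCat S Z x) : Subgroup S.G where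
  carrier := {w | ∃ z ∈ Z, ∃ v ∈ Z, S.q (x * z) (w * v) = S.zero}
  one_mem' := ⟨1, Z.one_mem, 1, Z.one_mem, by rw [one_mul, S.q_one]⟩
  mul_mem' := by
    rintro a b ⟨z, hz, v, hv, h1⟩ ⟨z', hz', v', hv', h2⟩
    obtain ⟨z1, hz1, ⟨u, hu, h3⟩, ⟨u', hu', h4⟩⟩ := h z hz z' hz' _ _ h1 h2
    refine ⟨z1, hz1, v * u * (v' * u'), Z.mul_mem (Z.mul_mem hv hu) (Z.mul_mem hv' hu'), ?_⟩
    have e : a * b * (v * u * (v' * u')) = a * v * u * (b * v' * u') := by ac_rfl
    rw [e]
    exact (qr h3).trans h4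
  inv_mem' := by
    intro a ha
    have h : a⁻¹ = a := inv_eq_of_mul_eq_one_left (S.exp_two a)
    rw [h]
    exact ha

/-- **pairs give a full lift** -/
theorem exists_full [Finite S.G] (hneg : S.neg = 1) {Z : Subgroup S.G} (hZ : MaxIso S Z)
    {x : S.G} (hx : x ∉ Z) (h : PCat S Z x) :
    ∃ m, m * x ∈ Z ∧ ∀ w ∈ DZ S Z x h, ∃ v ∈ Z, S.q m (w * v) = S.zero := by
  have : Finite (Additive S.G) := (inferInstance : Finite S.G)
  have e1 : ∀ m : S.G, x * (m * x) = m := fun m => cancel x m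
  have H : Fib (toD S hneg) (sm Z) (sm (DZ S Z x h)) (Additive.ofMul x) :=
    { iso := fun u hu v hv => (hZ _).1 hv _ hu
      hn := hx
      UD := by
        intro u hu
        refine ⟨1, Z.one_mem, Additive.toMul u, hu, ?_⟩
        rw [S.exp_two, S.q_one]
      ann := by
        intro m hm w hw
        refine ⟨Additive.toMul m * x, hm, 1, Z.one_mem, ?_⟩
        rw [e1, mul_one]
        exact hw }
  obtain ⟨m, hm, h1⟩ := fibre H (by
    rintro y ⟨z, hz, v, hv, h1⟩ y' ⟨z', hz', v', hv', h2⟩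
    obtain ⟨z1, hz1, ⟨u, hu, h3⟩, ⟨u', hu', h4⟩⟩ := h z hz z' hz' _ _ h1 h2
    refine ⟨Additive.ofMul (x * z1), ?_, ⟨Additive.ofMul (v * u), Z.mul_mem hv hu, ?_⟩,
      ⟨Additive.ofMul (v' * u'), Z.mul_mem hv' hu', ?_⟩⟩
    · show x * z1 * x ∈ Z
      have e2 : x * z1 * x = z1 := by
        rw [mul_comm x z1, mul_assoc, S.exp_two, mul_one]
      rw [e2]
      exact hz1
    · show S.q (x * z1) (Additive.toMul y * (v * u)) = S.zero
      rw [← mul_assoc]
      exact h3
    · show S.q (x * z1) (Additive.toMul y' * (v' * u')) = S.zero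
      rw [← mul_assoc]
      exact h4)
  refine ⟨Additive.toMul m, hm, fun w hw => ?_⟩
  obtain ⟨v, hv, h2⟩ := h1 (Additive.ofMul w) hw
  exact ⟨Additive.toMul v, hv, h2⟩

/-- **law MI(Z) at `s`** from pairs -/
theorem mi_at [Finite S.G] (hneg : S.neg = 1) {Z : Subgroup S.G} (hZ : MaxIso S Z)
    {s : S.G} (hs : s ∉ Z) (h : PCat S Z s) (hmax : ∀ z ∈ Z, va S (s * z) ≤ va S s) :
    ∀ z ∈ Z, ∀ x, S.q (s * z) x = S.zero → ∃ z' ∈ Z, S.q s (x * z') = S.zero := by
  obtain ⟨m, hm, h1⟩ := exists_full hneg hZ hs h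
  have : Finite (Additive S.G) := (inferInstance : Finite S.G)
  have e1 : s * (m * s) = m := cancel s m
  have hva : va S m ≤ va S s := by
    have := hmax _ hm
    rwa [e1] at this
  -- values of `m` and `s` on `Z` agree
  have hv : ∀ v ∈ Z, S.q m v = S.q s v := by
    intro v hv
    rw [← e1]
    exact qmul_left ((hZ v).1 hv _ hm)
  have hinf : sm (vz S s) ⊓ sm Z = sm (vz S m) ⊓ sm Z := by
    ext v
    constructor
    · rintro ⟨h2, h3⟩
      exact ⟨mem_vz.2 ((hv _ h3).trans (mem_vz.1 h2)), h3⟩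
    · rintro ⟨h2, h3⟩
      exact ⟨mem_vz.2 ((hv _ h3).symm.trans (mem_vz.1 h2)), h3⟩
  have hle : sm (vz S s) ⊔ sm Z ≤ sm (vz S m) ⊔ sm Z := by
    refine sup_le ?_ le_sup_right
    intro w hw
    obtain ⟨v, hv1, h2⟩ := h1 (Additive.toMul w) ⟨1, Z.one_mem, 1, Z.one_mem, by
      rw [mul_one, mul_one]
      exact mem_vz.1 hw⟩
    have h3 : w = (w + Additive.ofMul v) + Additive.ofMul v := by
      rw [add_assoc, ZModModule.add_self, add_zero]
    rw [h3]
    exact Submodule.add_mem_sup (mem_vz.2 h2) hv1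
  have hcard : Nat.card (sm (vz S m) ⊔ sm Z : Submodule (ZMod 2) (Additive S.G)) ≤
      Nat.card (sm (vz S s) ⊔ sm Z : Submodule (ZMod 2) (Additive S.G)) := by
    have h2 := HAS82.card_mul (sm (vz S s)) (sm Z)
    have h3 := HAS82.card_mul (sm (vz S m)) (sm Z)
    rw [hinf, card_sm, card_vz] at h2
    rw [card_sm, card_vz] at h3
    have h4 : 0 < Nat.card (sm (vz S m) ⊓ sm Z : Submodule (ZMod 2) (Additive S.G)) :=
      Nat.card_pos
    refine Nat.le_of_mul_le_mul_right ?_ h4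
    rw [← h2, ← h3]
    exact Nat.mul_le_mul_right _ hva
  have heq : sm (vz S s) ⊔ sm Z = sm (vz S m) ⊔ sm Z := by
    refine SetLike.coe_injective (Set.eq_of_subset_of_ncard_le hle ?_ (Set.toFinite _))
    exact hcard
  intro z hz x hx
  have h2 : Additive.ofMul x ∈ sm (vz S s) ⊔ sm Z := by
    rw [heq]
    obtain ⟨v, hv1, h2⟩ := h1 x ⟨z, hz, 1, Z.one_mem, by rw [mul_one]; exact hx⟩
    have h3 : Additive.ofMul x = (Additive.ofMul x + Additive.ofMul v) + Additive.ofMul v := by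
      rw [add_assoc, ZModModule.add_self, add_zero]
    rw [h3]
    exact Submodule.add_mem_sup (mem_vz.2 h2) hv1
  obtain ⟨a, ha, b, hb, hab⟩ := Submodule.mem_sup.1 h2
  refine ⟨Additive.toMul b, hb, ?_⟩
  have h3 : x * Additive.toMul b = Additive.toMul a := by
    have : Additive.ofMul x + b = a := by
      rw [← hab, add_assoc, ZModModule.add_self, add_zero]
    exact this
  rw [h3]
  exact mem_vz.1 ha

/-- **law PC**: any two elements `y ∈ V_(xz)`, `y' ∈ V_(xz')` with `z, z'` in a maximal isotropic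
subgroup `Z` lie in `V_(xz'') Z` for one `z'' ∈ Z` -/
def LawPC (S : QStruct) : Prop := ∀ Z : Subgroup S.G, MaxIso S Z → ∀ x, x ∉ Z → PCat S Z x

theorem LawPC.mi [Finite S.G] (hneg : S.neg = 1) (h : LawPC S) : LawMI S :=
  fun Z hZ s hs hmax z hz x hx => mi_at hneg hZ hs (h Z hZ s hs) hmax z hz x hx

/-- **law PC gives the elementary type conjecture for `-1 = 1`** -/
theorem etc_of_PC (h : ∀ S : QStruct, MinEx S → LawPC S) :
    ∀ S : QStruct, Finite S.G → S.neg = 1 → ElemType S :=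
  etc_of_MI fun S M => by
    have := M.fin
    exact (h S M).mi M.neg

end Pool.Agent.KAP87
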