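import Pool.Agent.KAP87.LawR
import Pool.Agent.KAP66.Main

/-!
Law R of helper60 at the heaviest elements, violating pairs `(g, s)` with
`K = V_g ∩ V_s ≠ 1`: reduction to one law on the centralizer `U = V_K` (hand proof: helper60,
message 40308).  If `V_x ≤ K U` for all `x ≠ 1` in `U`, then `U` is linked, hence of elementary
type by minimality, `g` is heaviest in `U`, and the violation lives in `U`.
-/

set_option autoImplicit false
set_option linter.unusedSectionVars false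

namespace Pool.Agent.KAP87

open QS
open Pool.Agent.MXR66 (va qr qm ql of_ql cancel)
open Pool.Agent.RF66 (LawR)
open Pool.Agent.KAP66

variable {S : QStruct}

/-- `k ∈ K = V_g ∩ V_s` -/
def InK (S : QStruct) (g s k : S.G) : Prop := S.q g k = S.zero ∧ S.q s k = S.zero

/-- the centralizer `U` of `K = V_g ∩ V_s` -/
def UU (S : QStruct) (g s : S.G) : Subgroup S.G where
  carrier := {x | ∀ k, InK S g s k → S.q k x = S.zero}
  one_mem' := fun k _ => S.q_one k
  mul_mem' := fun {a b} ha hb k hk => by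
    rw [qr (ha k hk)]; exact hb k hk
  inv_mem' := fun {a} ha k hk => by
    have : a⁻¹ = a := inv_eq_of_mul_eq_one_left (S.exp_two a)
    rw [this]; exact ha k hk

theorem mem_UU {g s x : S.G} : x ∈ UU S g s ↔ ∀ k, InK S g s k → S.q k x = S.zero := Iff.rfl

theorem g_mem (g s : S.G) : g ∈ UU S g s := fun k hk => by rw [S.qs2]; exact hk.1

theorem s_mem (g s : S.G) : s ∈ UU S g s := fun k hk => by rw [S.qs2]; exact hk.2

theorem UU_comm {g s x k : S.G} (hx : x ∈ UU S g s) (hk : InK S g s k) : S.q x k = S.zero := by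
  rw [S.qs2]; exact hx k hk

/-- `V_x ≤ K U` -/
def DD (S : QStruct) (g s x : S.G) : Prop :=
  ∀ v, S.q x v = S.zero → ∃ k, InK S g s k ∧ v * k ∈ UU S g s

/-- linkage of `U` -/
theorem lsub {g s : S.G}
    (h : ∀ a ∈ UU S g s, ∀ b ∈ UU S g s, ∀ c ∈ UU S g s, ∀ d ∈ UU S g s,
      S.q a b = S.q c d → S.q a b ≠ S.zero → DD S g s a ∨ DD S g s c) :
    REG10.Lsub S (UU S g s) := by
  intro a ha b hb c hc d hd hab
  by_cases h0 : S.q a b = S.zero
  · exact ⟨1, (UU S g s).one_mem, by rw [h0, S.q_one], by rw [← hab, h0, S.q_one]⟩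
  obtain ⟨x, h1, h2⟩ := S.qs4 a b c d hab
  have key : ∀ e y : S.G, y ∈ UU S g s → DD S g s e → S.q e y = S.q e x →
      ∃ x' ∈ UU S g s, S.q a b = S.q a x' ∧ S.q c d = S.q c x' := by
    intro e y hy hD hey
    obtain ⟨k, hk, hk'⟩ := hD (x * y) (qm hey.symm)
    refine ⟨k * x, ?_, ?_, ?_⟩
    · have h5 := (UU S g s).mul_mem hk' hy
      have e1 : x * y * k * y = k * x := by
        calc x * y * k * y = k * x * (y * y) := by
              rw [mul_right_comm, mul_assoc x y y, mul_comm (x * (y * y)) k, ← mul_assoc]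
          _ = k * x := by rw [S.exp_two, mul_one]
      rwa [e1] at h5
    · rw [qr (UU_comm ha hk)]; exact h1
    · rw [qr (UU_comm hc hk)]; exact h2
  rcases h a ha b hb c hc d hd hab h0 with h | h
  · exact key a b hb h h1
  · exact key c d hd h h2

variable [Finite S.G]

/-- `K ∩ U = 1` -/
theorem inf_one {g s : S.G} (hg : Heavy S g) (hgs : S.q g s ≠ S.zero) (hD : DD S g s g) {y : S.G}
    (hy : InK S g s y) (hy' : y ∈ UU S g s) : y = 1 := by
  classical
  by_contra hy1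
  have hsub : ∀ v, S.q g v = S.zero → S.q y v = S.zero := by
    intro v hv
    obtain ⟨k, hk, hk'⟩ := hD v hv
    have h1 : S.q y (v * k) = S.zero := hk' y hy
    have h2 : S.q y (k * (v * k)) = S.q y (v * k) := qr (UU_comm hy' hk)
    have e : k * (v * k) = v := by
      rw [mul_comm v k, ← mul_assoc, S.exp_two, one_mul]
    rw [e] at h2
    exact h2.trans h1
  have hle := hg.2 y hy1
  have hlt : va S g < va S y := by
    have := Fintype.ofFinite S.G
    unfold va
    rw [Nat.card_eq_fintype_card, Nat.card_eq_fintype_card]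
    refine Fintype.card_lt_of_injective_of_notMem
      (fun v : {v : S.G // S.q g v = S.zero} =>
        (⟨v.1, hsub v.1 v.2⟩ : {v : S.G // S.q y v = S.zero}))
      (fun v v' e => Subtype.ext (congrArg (fun z => z.1) e))
      (b := ⟨s, by rw [S.qs2]; exact hy.2⟩) ?_
    rintro ⟨v, hv⟩
    have e : v.1 = s := congrArg Subtype.val hv
    exact hgs (e ▸ v.2)
  omega

/-- **the reduction of helper60** -/
theorem red (hneg : S.neg = 1) (hS : ¬ ElemType S)
    (hsm : ∀ T : QStruct, Finite T.G → T.neg = 1 → Nat.card T.G < Nat.card S.G → ElemType T)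
    {g s t : S.G} (hg : Heavy S g) (hgs : S.q g s ≠ S.zero) (hst : S.q s t = S.zero)
    (hgt : S.q g t ≠ S.zero) (hne : S.q g s ≠ S.q g t)
    {x₀ : S.G} (hx₀ : InK S g s x₀) (hx₁ : x₀ ≠ 1)
    (hL : REG10.Lsub S (UU S g s)) (hDg : DD S g s g) (hDs : DD S g s s) : False := by
  classical
  set U := UU S g s with hU
  have hinf : ∀ y, InK S g s y → y ∈ U → y = 1 := fun y h1 h2 => inf_one hg hgs hDg h1 h2
  have hUt : U ≠ ⊤ := by
    intro e
    refine hS (RF66.elem_of_low hneg hsm hx₁ hgs fun v => Or.inl ?_)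
    have hv : v ∈ U := e ▸ Subgroup.mem_top v
    exact hv x₀ hx₀
  have hE := RF66.hU_of hneg hsm U hL hUt
  set T := ESL.PRODRECX.sub S hneg U hL with hT
  have hz : ∀ x y : U, T.q x y = T.zero ↔ S.q x.1 y.1 = S.zero := fun x y =>
    ⟨fun h => congrArg Subtype.val h, fun h => Subtype.ext h⟩
  have hR := lawR_elem hE rfl (inferInstance : Finite U)
  have hfT : Finite T.G := (inferInstance : Finite U)
  -- weights
  have hK : 0 < Nat.card {k : S.G // InK S g s k} := by
    have : Nonempty {k : S.G // InK S g s k} := ⟨⟨1, S.q_one g, S.q_one s⟩⟩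
    exact Nat.card_pos
  have hw1 : ∀ x : U, Nat.card {k : S.G // InK S g s k} * va T x ≤ va S x.1 := by
    intro x
    unfold va
    rw [← Nat.card_prod]
    refine Nat.card_le_card_of_injective
      (fun p : {k : S.G // InK S g s k} × {v : T.G // T.q x v = T.zero} =>
        (⟨p.1.1 * (p.2.1 : U).1, ?_⟩ : {v : S.G // S.q x.1 v = S.zero})) ?_
    · rw [qr (UU_comm x.2 p.1.2)]
      exact (hz _ _).1 p.2.2
    · rintro ⟨⟨k, hk⟩, ⟨⟨u, hu⟩, hu'⟩⟩ ⟨⟨k', hk'⟩, ⟨⟨u', hu1⟩, hu1'⟩⟩ e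
      have e1 : k * u = k' * u' := congrArg Subtype.val e
      have e2 : k * k' = u * u' := by
        calc k * k' = k * u * (u * k') := by
              rw [mul_assoc, ← mul_assoc u u k', S.exp_two, one_mul]
          _ = k' * u' * (u * k') := by rw [e1]
          _ = u * u' * (k' * k') := by
              rw [mul_comm u k', ← mul_assoc, mul_comm k' u', mul_assoc u' k' k',
                mul_comm u' (k' * k'), mul_assoc (k' * k') u' u, mul_comm u' u, mul_comm]
          _ = u * u' := by rw [S.exp_two, mul_one]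
      have hkk : InK S g s (k * k') :=
        ⟨by rw [qr hk.1]; exact hk'.1, by rw [qr hk.2]; exact hk'.2⟩
      have h3 : k * k' = 1 := hinf _ hkk (by rw [e2]; exact U.mul_mem hu hu1)
      have h4 : k = k' := by
        calc k = k * (k' * k') := by rw [S.exp_two, mul_one]
          _ = k * k' * k' := (mul_assoc _ _ _).symm
          _ = k' := by rw [h3, one_mul]
      have h5 : u = u' := by
        rw [h3] at e2
        calc u = u * (u' * u') := by rw [S.exp_two, mul_one]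
          _ = u * u' * u' := (mul_assoc _ _ _).symm
          _ = u' := by rw [← e2, one_mul]
      subst h4 h5
      rfl
  let gU : U := ⟨g, g_mem g s⟩
  let sU : U := ⟨s, s_mem g s⟩
  have hw2 : va S g ≤ Nat.card {k : S.G // InK S g s k} * va T gU := by
    choose κ hκ1 hκ2 using hDg
    unfold va
    rw [← Nat.card_prod]
    refine Nat.card_le_card_of_injective
      (fun v : {v : S.G // S.q g v = S.zero} =>
        ((⟨κ v.1 v.2, hκ1 v.1 v.2⟩, ⟨(⟨v.1 * κ v.1 v.2, hκ2 v.1 v.2⟩ : U), ?_⟩) :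
          {k : S.G // InK S g s k} × {v : T.G // T.q gU v = T.zero})) ?_
    · refine (hz gU ⟨v.1 * κ v.1 v.2, hκ2 v.1 v.2⟩).2 ?_
      show S.q g (v.1 * κ v.1 v.2) = S.zero
      rw [qr v.2]
      exact (hκ1 v.1 v.2).1
    · rintro ⟨v, hv⟩ ⟨v', hv'⟩ e
      have e1 : κ v hv = κ v' hv' := congrArg (fun p => p.1.1) e
      have e2 : v * κ v hv = v' * κ v' hv' := congrArg (fun p => (p.2.1 : U).1) e
      rw [e1] at e2
      exact Subtype.ext (mul_right_cancel e2)
  have hg1 : gU ≠ 1 := fun e => hg.1 (congrArg Subtype.val e)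
  have hmax : ∀ x : T.G, x ≠ 1 → va T x ≤ va T gU := by
    intro x hx
    have hx1 : (x : U).1 ≠ 1 := fun e => hx (Subtype.ext e)
    have h1 := hw1 x
    have h2 := hg.2 _ hx1
    exact Nat.le_of_mul_le_mul_left ((h1.trans h2).trans hw2) hK
  -- the violation lives in `U`
  obtain ⟨k, hk, hk'⟩ := hDs t hst
  have hsk : S.q s (t * k) = S.zero := by rw [qr hst]; exact hk.2
  have hgk : S.q g (t * k) = S.q g t := by rw [mul_comm, qr hk.1]
  have key := hR gU hg1 hmax sU ⟨t * k, hk'⟩ (fun h => hgs ((hz _ _).1 h))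
    (fun h => hgt (by rw [← hgk]; exact (hz _ _).1 h)) ((hz _ _).2 hsk)
  have key2 : S.q g s = S.q g (t * k) := congrArg Subtype.val key
  exact hne (key2.trans hgk)

/-- `InK` does not change if `s` is replaced by `g s` -/
theorem inK_mul {g s k : S.G} : InK S g (g * s) k ↔ InK S g s k := by
  constructor
  · rintro ⟨h1, h2⟩
    exact ⟨h1, by rwa [qmul_left' h1] at h2⟩
  · rintro ⟨h1, h2⟩
    exact ⟨h1, by rwa [qmul_left' h1]⟩

theorem UU_mul {g s : S.G} : UU S g (g * s) = UU S g s := by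
  ext x
  exact ⟨fun h k hk => h k (inK_mul.2 hk), fun h k hk => h k (inK_mul.1 hk)⟩

theorem DD_mul {g s x : S.G} : DD S g (g * s) x ↔ DD S g s x := by
  unfold DD
  rw [UU_mul]
  exact ⟨fun h v hv => by
      obtain ⟨k, h1, h2⟩ := h v hv
      exact ⟨k, inK_mul.1 h1, h2⟩,
    fun h v hv => by
      obtain ⟨k, h1, h2⟩ := h v hv
      exact ⟨k, inK_mul.2 h1, h2⟩⟩

/-- law (B) of helper60 at `(g, s)`: `V_x ≤ K U` for all `x ≠ 1` in `U = V_K`, `K = V_g ∩ V_s` -/
def LawB (S : QStruct) (g s : S.G) : Prop := ∀ x ∈ UU S g s, x ≠ 1 → DD S g s x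

/-- weak form of law (B): `V_g ≤ K U`, `V_s ≤ K U`, `V_(gs) ≤ K U`, and of any two elements of `U`
with a common symbol `≠ 0` one satisfies `V_x ≤ K U` -/
def LawB' (S : QStruct) (g s : S.G) : Prop :=
  DD S g s g ∧ DD S g s s ∧ DD S g s (g * s) ∧
    ∀ a ∈ UU S g s, ∀ b ∈ UU S g s, ∀ c ∈ UU S g s, ∀ d ∈ UU S g s,
      S.q a b = S.q c d → S.q a b ≠ S.zero → DD S g s a ∨ DD S g s c

theorem LawB.weak {g s : S.G} (hneg : S.neg = 1) (hgs : S.q g s ≠ S.zero) (h : LawB S g s) :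
    LawB' S g s := by
  have hg : g ≠ 1 := ne_one_of_q' hgs
  have hs : s ≠ 1 := ne_one_of_q hgs
  have hgs1 : g * s ≠ 1 := fun e => hgs (by
    have : s = g := by
      calc s = g * (g * s) := by rw [← mul_assoc, S.exp_two, one_mul]
        _ = g := by rw [e, mul_one]
    rw [this]; exact qself hneg g)
  refine ⟨h g (g_mem g s) hg, h s (s_mem g s) hs,
    h _ ((UU S g s).mul_mem (g_mem g s) (s_mem g s)) hgs1, ?_⟩
  intro a ha b _ c hc d _ _ h0
  exact Or.inl (h a ha fun e => h0 (by rw [e, S.qs2, S.q_one]))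

/-- no violating pair with `V_g ∩ V_s ≠ 1` satisfies law (B) -/
theorem no_viol_of_B (hneg : S.neg = 1) (hS : ¬ ElemType S)
    (hsm : ∀ T : QStruct, Finite T.G → T.neg = 1 → Nat.card T.G < Nat.card S.G → ElemType T)
    {g s : S.G} (hv : Viol S g s) {x₀ : S.G} (hx₀ : InK S g s x₀) (hx₁ : x₀ ≠ 1)
    (hB : LawB' S g s) : False := by
  obtain ⟨hD1, hD2, hD3, hB4⟩ := hB
  rcases hv.2.2 with ⟨c, h1, h2, h3, h4⟩ | ⟨c, h1, h2, h3, h4⟩
  · -- `c ∈ Q_g ∩ Q_s`: `g t = c`, `(g s) t = 0`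
    obtain ⟨t, ht1, ht2⟩ := slot0 (y := g * s) h1 (by
      rw [← mul_assoc, S.exp_two, one_mul]; exact h2)
    have hL : REG10.Lsub S (UU S g (g * s)) := by
      rw [UU_mul]; exact lsub hB4
    exact red hneg hS hsm hv.1 (s := g * s) (t := t) (by rw [q_mul_self hneg]; exact hv.2.1) ht2
      (by rw [ht1]; exact h3) (by rw [q_mul_self hneg, ht1]; exact fun e => h4 e.symm)
      (inK_mul.2 hx₀) hx₁ hL (DD_mul.2 hD1) (DD_mul.2 hD3)
  · obtain ⟨t, ht1, ht2⟩ := slot0 h1 h2
    exact red hneg hS hsm hv.1 hv.2.1 ht2 (by rw [ht1]; exact h3)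
      (by rw [ht1]; exact fun e => h4 e.symm) hx₀ hx₁ (lsub hB4) hD1 hD2

/-- **law (B) at the violating pairs with `|V_g ∩ V_s|` largest gives the elementary type
conjecture, `-1 = 1`** -/
theorem etc_of_B (h : ∀ S : QStruct, Finite S.G → S.neg = 1 → ¬ ElemType S →
    (∀ T : QStruct, Finite T.G → T.neg = 1 → Nat.card T.G < Nat.card S.G → ElemType T) →
    ∀ g s : S.G, Viol S g s → 2 ≤ cv S g s →
      (∀ g' s' : S.G, Viol S g' s' → cv S g' s' ≤ cv S g s) → LawB' S g s) :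
    ∀ S : QStruct, Finite S.G → S.neg = 1 → ElemType S := by
  refine RF66.etc_of_R fun S hf hneg hS hsm g hg hmax => ?_
  haveI := hf
  classical
  refine lawR_of_no_viol ⟨hg, hmax⟩ fun s hv => ?_
  obtain ⟨g₁, s₁, x₁, hv₁, hx₁, hx₂, hx₃⟩ := exists_common hneg hS hsm hv
  have hne : Nonempty {p : S.G × S.G // Viol S p.1 p.2} := ⟨⟨(g₁, s₁), hv₁⟩⟩
  obtain ⟨⟨⟨g₂, s₂⟩, hv₂⟩, hm⟩ := Finite.exists_max
    (fun p : {p : S.G × S.G // Viol S p.1 p.2} => cv S p.1.1 p.1.2)
  have hm' : ∀ g' s' : S.G, Viol S g' s' → cv S g' s' ≤ cv S g₂ s₂ := fun g' s' h' =>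
    hm ⟨(g', s'), h'⟩
  have h2 : 2 ≤ cv S g₂ s₂ := (cv_two hx₂ hx₃ hx₁).trans (hm' _ _ hv₁)
  obtain ⟨x₀, hx₀, hx₀'⟩ : ∃ x₀, InK S g₂ s₂ x₀ ∧ x₀ ≠ 1 := by
    by_contra hno
    push Not at hno
    have := cv_one (x := g₂) (y := s₂) fun v h1 h2 => hno v ⟨h1, h2⟩
    omega
  exact no_viol_of_B hneg hS hsm hv₂ hx₀ hx₀' (h S hf hneg hS hsm g₂ s₂ hv₂ h2 hm')

end Pool.Agent.KAP87
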